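import Pool.Agent.Helper54.PT.DefsD
import Pool.Agent.Helper45.TW.A1

/-!
# Common lemmas for the local conditions at ramified primes, bad primes and infinity
-/

set_option autoImplicit false

namespace Pool.Agent.Helper33.TW

open Polynomial Finset Pool.Agent.Helper54.PT Pool.Agent.Helper47.BSD

universe u v

/-- Functions which are additive on the nonzero elements of a field. -/
def IsAdd {A : Type} [CommRing A] {K : Type u} [Field K] (f : K → A) : Prop :=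
  ∀ x y : K, x ≠ 0 → y ≠ 0 → f (x * y) = f x + f y

section

variable {A : Type} [CommRing A] {K : Type u} [Field K] {f : K → A}

lemma IsAdd.one (hf : IsAdd f) : f 1 = 0 := by
  have h := hf 1 1 one_ne_zero one_ne_zero
  rw [mul_one] at h
  exact add_eq_left.1 h.symm

lemma IsAdd.inv (hf : IsAdd f) {x : K} (hx : x ≠ 0) : f x⁻¹ = -f x := by
  have h := hf x x⁻¹ hx (inv_ne_zero hx)
  rw [mul_inv_cancel₀ hx, hf.one] at h
  linear_combination -h

lemma IsAdd.div (hf : IsAdd f) {x y : K} (hx : x ≠ 0) (hy : y ≠ 0) : f (x / y) = f x - f y := by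
  rw [div_eq_mul_inv, hf _ _ hx (inv_ne_zero hy), hf.inv hy, sub_eq_add_neg]

lemma IsAdd.pow (hf : IsAdd f) {x : K} (hx : x ≠ 0) (n : ℕ) : f (x ^ n) = n * f x := by
  induction n with
  | zero => rw [pow_zero, hf.one, Nat.cast_zero, zero_mul]
  | succ n ih =>
    rw [pow_succ, hf _ _ (pow_ne_zero n hx) hx, ih, Nat.cast_succ]
    ring

lemma IsAdd.prod (hf : IsAdd f) {α : Type} (s : Finset α) (x : α → K) (hx : ∀ i ∈ s, x i ≠ 0) :
    f (∏ i ∈ s, x i) = ∑ i ∈ s, f (x i) := by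
  classical
  induction s using Finset.induction_on with
  | empty => rw [prod_empty, sum_empty, hf.one]
  | insert a s ha ih =>
    rw [prod_insert ha, sum_insert ha, hf _ _ (hx a (mem_insert_self a s))
      (prod_ne_zero_iff.2 fun i hi => hx i (mem_insert_of_mem hi)),
      ih fun i hi => hx i (mem_insert_of_mem hi)]

end

section

variable {ℓ : ℕ} {K : Type u} [Field K] {f g : K → ZMod ℓ} [Fact ℓ.Prime]

lemma inva_cast {n : ℕ} : ((inva ℓ n : ℕ) : ZMod ℓ) = (n : ZMod ℓ)⁻¹ := by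
  rw [inva, ZMod.natCast_zmod_val]

lemma natCast_ne_zero {n : ℕ} (h : ¬ ℓ ∣ n) : (n : ZMod ℓ) ≠ 0 := by
  rwa [Ne, ZMod.natCast_eq_zero_iff]

variable {ι : Type} [Fintype ι] [DecidableEq ι] {a : ι → ℕ} {E : ι → K}

omit [Fact ℓ.Prime] in
lemma tt_ne {i j : ι} (h : j ≠ i) : tt ℓ a E i j = E i - E j := by
  rw [tt, if_neg h]

omit [Fact ℓ.Prime] in
lemma tt_ne_zero (hE : ∀ i j, i ≠ j → E i - E j ≠ 0) (i j : ι) : tt ℓ a E i j ≠ 0 := by
  unfold tt
  split_ifs with h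
  · exact inv_ne_zero (pow_ne_zero _ (prod_ne_zero_iff.2 fun m hm =>
      pow_ne_zero _ (hE i m (ne_of_mem_erase hm).symm)))
  · exact hE i j fun h2 => h h2.symm

lemma IsAdd.tt_self (hf : IsAdd f) (hE : ∀ i j, i ≠ j → E i - E j ≠ 0) (i : ι) :
    f (tt ℓ a E i i) =
      -((a i : ZMod ℓ)⁻¹ * ∑ m ∈ univ.erase i, (a m : ZMod ℓ) * f (E i - E m)) := by
  have h1 : ∀ m ∈ univ.erase i, (E i - E m) ^ a m ≠ 0 := fun m hm =>
    pow_ne_zero _ (hE i m (ne_of_mem_erase hm).symm)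
  rw [tt, if_pos rfl, hf.inv (pow_ne_zero _ (prod_ne_zero_iff.2 h1)),
    hf.pow (prod_ne_zero_iff.2 h1), hf.prod _ _ h1, inva_cast]
  congr 2
  exact sum_congr rfl fun m hm => hf.pow (hE i m (ne_of_mem_erase hm).symm) _

omit [Fact ℓ.Prime] in
lemma map_tt {L : Type v} [Field L] (φ : K →+* L) (i j : ι) :
    φ (tt ℓ a E i j) = tt ℓ a (fun i => φ (E i)) i j := by
  unfold tt
  split_ifs
  · simp only [map_inv₀, map_pow, map_prod, map_sub]
  · rw [map_sub]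

lemma IsAdd.prod_tt (hf : IsAdd f) (hE : ∀ i j, i ≠ j → E i - E j ≠ 0) (c : ι → ℕ) (j : ι) :
    f (∏ i, tt ℓ a E i j ^ c i) = ∑ i ∈ univ.erase j, (c i : ZMod ℓ) * f (E i - E j) -
      (c j : ZMod ℓ) * ((a j : ZMod ℓ)⁻¹ * ∑ m ∈ univ.erase j, (a m : ZMod ℓ) * f (E j - E m)) := by
  rw [hf.prod _ _ fun i _ => pow_ne_zero _ (tt_ne_zero hE i j),
    ← add_sum_erase _ _ (mem_univ j), hf.pow (tt_ne_zero hE j j), hf.tt_self hE]
  have h1 : ∑ i ∈ univ.erase j, f (tt ℓ a E i j ^ c i) =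
      ∑ i ∈ univ.erase j, (c i : ZMod ℓ) * f (E i - E j) := sum_congr rfl fun i hi => by
    rw [hf.pow (tt_ne_zero hE i j), tt_ne (ne_of_mem_erase hi).symm]
  rw [h1]
  ring

/-- The ramified case: the value of `g` is determined by that of `f`. -/
lemma ram_formula (ha : ∀ i, ¬ ℓ ∣ a i) (hs : ¬ ℓ ∣ ∑ i, a i) (hf : IsAdd f) (hg : IsAdd g)
    (hE : ∀ i j, i ≠ j → E i - E j ≠ 0) {n r : ZMod ℓ} (hn : n ≠ 0) (G : ι → ι → ZMod ℓ)
    (h1 : ∀ i j, i ≠ j → f (E i - E j) = n) (h2 : ∀ i j, i ≠ j → g (E i - E j) = r + G i j)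
    (h3 : ∀ i j, i ≠ j → G i j = G j i) (c : ι → ℕ) (w : ι → ZMod ℓ)
    (hw : ∀ j, f (∏ i, tt ℓ a E i j ^ c i) = n * w j) (j : ι) :
    g (∏ i, tt ℓ a E i j ^ c i) = w j * r +
      ∑ m, (a m : ZMod ℓ) * (asum ℓ a)⁻¹ * (w j - w m) * G m j := by
  have hA : asum ℓ a ≠ 0 := by
    have := natCast_ne_zero hs
    rwa [Nat.cast_sum] at this
  have haz : ∀ i, (a i : ZMod ℓ) ≠ 0 := fun i => natCast_ne_zero (ha i)
  set S : ZMod ℓ := ∑ i, (c i : ZMod ℓ) with hS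
  have hSe : ∀ j, ∑ i ∈ univ.erase j, (c i : ZMod ℓ) = S - c j := fun j => by
    rw [hS, ← add_sum_erase univ (fun i => (c i : ZMod ℓ)) (mem_univ j)]
    ring
  have hAe : ∀ j, ∑ i ∈ univ.erase j, (a i : ZMod ℓ) = asum ℓ a - a j := fun j => by
    rw [asum, ← add_sum_erase univ (fun i => (a i : ZMod ℓ)) (mem_univ j)]
    ring
  have hwj : ∀ j, w j = S - c j * (asum ℓ a * (a j : ZMod ℓ)⁻¹) := by
    intro j
    have h4 := hw j
    have h5 : ∑ i ∈ univ.erase j, (c i : ZMod ℓ) * f (E i - E j) =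
        ∑ i ∈ univ.erase j, (c i : ZMod ℓ) * n :=
      sum_congr rfl fun i hi => by rw [h1 i j (ne_of_mem_erase hi)]
    have h6 : ∑ m ∈ univ.erase j, (a m : ZMod ℓ) * f (E j - E m) =
        ∑ m ∈ univ.erase j, (a m : ZMod ℓ) * n :=
      sum_congr rfl fun m hm => by rw [h1 j m (ne_of_mem_erase hm).symm]
    rw [hf.prod_tt hE, h5, h6, ← sum_mul, ← sum_mul, hSe, hAe] at h4
    apply mul_left_cancel₀ hn
    rw [← h4]
    have := haz j
    field_simp
    ring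
  have h7 : ∑ i ∈ univ.erase j, (c i : ZMod ℓ) * g (E i - E j) =
      ∑ i ∈ univ.erase j, (c i : ZMod ℓ) * (r + G i j) :=
    sum_congr rfl fun i hi => by rw [h2 i j (ne_of_mem_erase hi)]
  have h8 : ∑ m ∈ univ.erase j, (a m : ZMod ℓ) * g (E j - E m) =
      ∑ m ∈ univ.erase j, (a m : ZMod ℓ) * (r + G m j) :=
    sum_congr rfl fun m hm => by
      rw [h2 j m (ne_of_mem_erase hm).symm, h3 j m (ne_of_mem_erase hm).symm]
  rw [hg.prod_tt hE, h7, h8]
  have h5 : ∑ m, (a m : ZMod ℓ) * (asum ℓ a)⁻¹ * (w j - w m) * G m j =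
      ∑ m ∈ univ.erase j, ((c m : ZMod ℓ) - c j * (a j : ZMod ℓ)⁻¹ * a m) * G m j := by
    rw [← add_sum_erase univ _ (mem_univ j), sub_self, mul_zero, zero_mul, zero_add]
    refine sum_congr rfl fun m _ => ?_
    rw [hwj m, hwj j]
    have := haz j
    have := haz m
    congr 1
    field_simp
    ring
  rw [h5, hwj j]
  simp only [mul_add, sum_add_distrib, ← sum_mul, sub_mul, sum_sub_distrib]
  rw [hSe, hAe]
  have h6 : ∑ x ∈ univ.erase j, (c j : ZMod ℓ) * (a j : ZMod ℓ)⁻¹ * a x * G x j =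
      c j * ((a j : ZMod ℓ)⁻¹ * ∑ x ∈ univ.erase j, (a x : ZMod ℓ) * G x j) := by
    rw [mul_sum, mul_sum]
    exact sum_congr rfl fun m _ => by ring
  rw [h6]
  have := haz j
  field_simp
  ring

/-- Sums over pairs. -/
lemma sum_tauX {σ : Type} [Fintype σ] [DecidableEq σ] (i₁ i₂ : σ → ι) (hne : ∀ r, i₁ r ≠ i₂ r)
    (lgl : ι → ι → ZMod ℓ) (s : σ → ZMod ℓ) (w : ι → ZMod ℓ) (j : ι) :
    ∑ r, tauX a i₁ i₂ lgl w j (some r) * s r =
      ∑ m, (a m : ZMod ℓ) * (asum ℓ a)⁻¹ * (w j - w m) *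
        ∑ r ∈ univ.filter (fun r => s(i₁ r, i₂ r) = s(m, j)), s r := by
  have h1 : ∀ m, (a m : ZMod ℓ) * (asum ℓ a)⁻¹ * (w j - w m) *
        ∑ r ∈ univ.filter (fun r => s(i₁ r, i₂ r) = s(m, j)), s r =
      ∑ r, if s(i₁ r, i₂ r) = s(m, j) then (a m : ZMod ℓ) * (asum ℓ a)⁻¹ * (w j - w m) * s r
        else 0 := by
    intro m
    rw [sum_filter, mul_sum]
    exact sum_congr rfl fun r _ => by split_ifs <;> simp
  simp only [h1]
  rw [sum_comm]
  refine sum_congr rfl fun r _ => ?_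
  simp only [tauX]
  have hr := hne r
  by_cases hj1 : j = i₁ r
  · subst hj1
    rw [if_pos rfl, sum_eq_single (i₂ r)]
    · rw [if_pos Sym2.eq_swap]
    · intro m _ hm
      rw [if_neg]
      rw [Sym2.eq_iff]
      rintro (⟨h2, h3⟩ | ⟨h2, h3⟩)
      · exact hr h3.symm
      · exact hm h3.symm
    · intro h; exact absurd (mem_univ _) h
  · rw [if_neg hj1]
    by_cases hj2 : j = i₂ r
    · subst hj2
      rw [if_pos rfl, sum_eq_single (i₁ r)]
      · rw [if_pos rfl]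
      · intro m _ hm
        rw [if_neg]
        rw [Sym2.eq_iff]
        rintro (⟨h2, h3⟩ | ⟨h2, h3⟩)
        · exact hm h2.symm
        · exact hr h2
      · intro h; exact absurd (mem_univ _) h
    · rw [if_neg hj2, zero_mul]
      refine (sum_eq_zero fun m _ => ?_).symm
      rw [if_neg]
      rw [Sym2.eq_iff]
      rintro (⟨h2, h3⟩ | ⟨h2, h3⟩)
      · exact hj2 h3.symm
      · exact hj1 h2.symm

end

end Pool.Agent.Helper33.TW
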