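import Pool.Agent.Helper33.TW.PreB

/-!
# Module C17: the local condition at the primes dividing `D`
-/

set_option autoImplicit false
set_option linter.unusedSectionVars false

namespace Pool.Agent.Helper33.TW

open Polynomial Finset Pool.Agent.Helper54.PT Pool.Agent.Helper47.BSD

section

variable {F : Type} [Field F] [Finite F] {ℓ : ℕ} [Fact ℓ.Prime] {ι : Type} [Fintype ι]
  [DecidableEq ι] {σ : Type} [Fintype σ] [DecidableEq σ] {a : ι → ℕ} {e : ι → F[X]}
  {R : σ → Prm F} {i₁ i₂ : σ → ι} {N : ℕ} {lg : F → ZMod ℓ}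

lemma exists_charP (F : Type) [Field F] [Finite F] :
    ∃ p : ℕ, p.Prime ∧ CharP (RatFunc F) p := by
  obtain ⟨p, hp⟩ := CharP.exists F
  have : Fintype F := Fintype.ofFinite F
  have := hp
  refine ⟨p, CharP.char_is_prime F p, ?_⟩
  exact charP_of_injective_algebraMap (algebraMap F (RatFunc F)).injective p

lemma abs_qK_le (P : Prm F) {v : AbsoluteValue (RatFunc F) ℝ} (hv : IsAbsP P v) (f : F[X]) :
    v (qK f) ≤ 1 := by
  by_cases hf : f = 0
  · rw [hf, qK, map_zero, map_zero]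
    exact zero_le_one
  · rw [hv _ (qK_ne_zero hf), ordK_poly P hf]
    rw [zpow_neg]
    exact inv_le_one_of_one_le₀ (one_le_zpow₀ one_le_two (Int.natCast_nonneg _))

/-- Transfer from the completion. -/
lemma transfer {K : Type} [Field K] {v : AbsoluteValue K ℝ} {E : ι → K}
    (hE : ∀ i j, i ≠ j → E i - E j ≠ 0) (d : ι → Kˣ) (c : ι → ℕ) (x : ι → v.Completion)
    (h : ∀ j, (mapUnits (algebraMap K v.Completion) d j : v.Completion) =
      (∏ i, tt ℓ a (fun i => algebraMap K v.Completion (E i)) i j ^ c i) * x j ^ ℓ) (j : ι) :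
    algebraMap K v.Completion ((d j : K) / ∏ i, tt ℓ a E i j ^ c i) = x j ^ ℓ := by
  have h0 : ∏ i, tt ℓ a E i j ^ c i ≠ 0 :=
    prod_ne_zero_iff.2 fun i _ => pow_ne_zero _ (tt_ne_zero hE i j)
  have h1 : algebraMap K v.Completion (d j : K) =
      algebraMap K v.Completion (∏ i, tt ℓ a E i j ^ c i) * x j ^ ℓ := by
    rw [map_prod]
    simp only [map_pow, map_tt]
    exact h j
  rw [map_div₀, h1, mul_div_cancel_left₀]
  rwa [Ne, map_eq_zero]

end

end Pool.Agent.Helper33.TW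

namespace Pool.Agent.Helper54.PT

open Polynomial Finset Pool.Agent.Helper47.BSD Pool.Agent.Helper33.TW

section Descent

variable {F : Type} [Field F] [Finite F] {ℓ : ℕ} [Fact ℓ.Prime] {ι : Type} [Fintype ι]
  [DecidableEq ι] {σ : Type} [Fintype σ] [DecidableEq σ] {a : ι → ℕ} {e : ι → F[X]}
  {R : σ → Prm F} {i₁ i₂ : σ → ι} {N : ℕ} {lg : F → ZMod ℓ}

/-- C17: the primes dividing `D`; `lr` is `loc_ram` -/
theorem selmer_ram
    (lr : ∀ {k : Type} [NontriviallyNormedField k] [IsUltrametricDist k] [CompleteSpace k]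
      {π : k} (_ : LF ℓ π) (D : k) (m : ℤ) (_ : ¬ (ℓ : ℤ) ∣ m) (_ : ‖D‖ = ‖π‖ ^ m) (e : ι → k)
      (_ : ∀ i, ‖e i‖ ≤ 1) (_ : ∀ i j, i ≠ j → ‖e i - e j‖ = 1) (d : ι → kˣ)
      (_ : d ∈ descentGroup ℓ a (fun i => D * e i)),
      ∃ (c : ι → ℕ) (x : ι → k), ∀ j,
        (d j : k) = (∏ i, tt ℓ a (fun i => D * e i) i j ^ c i) * x j ^ ℓ)
    (hq : ℓ ∣ Nat.card F - 1) (hlg : IsLog ℓ lg) (hm : lg (-1) = 0)
    (hrec : ∀ P Q : Prm F, P ≠ Q → sy lg Q.1 P.1 = sy lg P.1 Q.1)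
    (hS : Setup ℓ a e R i₁ i₂ N) (D : Finset (Prm F))
    (hD : ∀ P ∈ D, ∀ r, P ≠ R r) (d : ι → (RatFunc F)ˣ) (hd : d ∈ selmerSet ℓ a (tw e D))
    (P : Prm F) (hP : P ∈ D) (j : ι) :
    rsK lg P (d j : RatFunc F) =
      (ordK P (d j : RatFunc F) : ZMod ℓ) * ∑ P' ∈ D.erase P, sy lg P.1 P'.1 +
      ∑ r : σ, tauX a i₁ i₂ (lglE lg e N) (fun m => (ordK P (d m : RatFunc F) : ZMod ℓ)) j
        (some r) * sy lg P.1 (R r).1 +
      tauX a i₁ i₂ (lglE lg e N) (fun m => (ordK P (d m : RatFunc F) : ZMod ℓ)) j none *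
        (P.1.natDegree : ZMod ℓ) := by
  obtain ⟨p, hp, hchar⟩ := exists_charP F
  obtain ⟨v, hvn, hv⟩ := exists_absP P
  have hdP := hd v hvn
  have := ultra_completion v p hp
  let := nontrivNormed v hvn
  have hk := lf_absP hq P v hv
  have hnorm : ∀ x : RatFunc F, ‖algebraMap (RatFunc F) v.Completion x‖ = v x := norm_algebraMap v
  have hfun : (fun i => algebraMap (RatFunc F) v.Completion (tw e D i)) =
      fun i => algebraMap (RatFunc F) v.Completion (∏ P ∈ D, pK P) *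
        algebraMap (RatFunc F) v.Completion (qK (e i)) := by
    funext i
    rw [tw_eq, map_mul]
  have hE := tw_sub_ne_zero hS D
  rw [hfun] at hdP
  have hl : (ℓ : ℤ) ≠ 1 := by exact_mod_cast (Fact.out : ℓ.Prime).one_lt.ne'
  have hD1 : v (∏ P ∈ D, pK P) = v (pK P) ^ (1 : ℤ) := by
    have h0 : ∏ P ∈ D, pK P ≠ 0 := prod_pK_ne_zero D id
    rw [hv _ h0, hv _ (pK_ne_zero P), zpow_one]
    congr 2
    rw [prod_aux (isAdd_ordK P), sum_congr rfl fun Q _ => ordK_prime P Q, ordK_prime, if_pos rfl,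
      sum_ite_eq, if_pos hP]
  have hsub : ∀ i j, i ≠ j → v (qK (e i) - qK (e j)) = 1 := by
    intro i j hij
    rw [hv _ (qK_sub_ne_zero hS hij), (isAdd_ordK P).qK_sub hS hij,
      ordK_const P (lead_ne hS hij), sum_eq_zero fun r _ => by
        rw [ordK_prime, if_neg (hD P hP r)]]
    simp
  obtain ⟨c, x, hcx⟩ := lr (k := v.Completion) hk
    (algebraMap (RatFunc F) v.Completion (∏ P ∈ D, pK P)) 1
    (fun h => hl (Int.eq_one_of_dvd_one (Int.natCast_nonneg _) h))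
    (by rw [hnorm, hnorm]; exact hD1)
    (fun i => algebraMap (RatFunc F) v.Completion (qK (e i)))
    (fun i => by rw [hnorm]; exact abs_qK_le P hv (e i))
    (fun i j hij => by rw [← map_sub, hnorm]; exact hsub i j hij)
    (mapUnits (algebraMap (RatFunc F) v.Completion) d) hdP
  rw [← hfun] at hcx
  have ht0 : ∀ j, ∏ i, tt ℓ a (tw e D) i j ^ c i ≠ 0 := fun j =>
    prod_ne_zero_iff.2 fun i _ => pow_ne_zero _ (tt_ne_zero hE i j)
  have hcl : ∀ j, (ℓ : ℤ) ∣ ordK P ((d j : RatFunc F) / ∏ i, tt ℓ a (tw e D) i j ^ c i) ∧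
      rsK lg P ((d j : RatFunc F) / ∏ i, tt ℓ a (tw e D) i j ^ c i) = 0 := fun j =>
    class_of_pow_absP hlg P v hv (div_ne_zero (d j).ne_zero (ht0 j))
      ⟨x j, transfer hE d c x hcx j⟩
  have h1 : ∀ j, (fun x => (ordK P x : ZMod ℓ)) (∏ i, tt ℓ a (tw e D) i j ^ c i) =
      1 * (fun m => (ordK P (d m : RatFunc F) : ZMod ℓ)) j := by
    intro j
    have h2 := (ZMod.intCast_zmod_eq_zero_iff_dvd _ ℓ).2 (hcl j).1
    rw [(isAdd_ordK P).div (d j).ne_zero (ht0 j), Int.cast_sub] at h2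
    rw [one_mul]
    exact (sub_eq_zero.1 h2).symm
  have h2 : rsK lg P (d j : RatFunc F) = rsK lg P (∏ i, tt ℓ a (tw e D) i j ^ c i) := by
    have h3 := (hcl j).2
    rw [(isAdd_rsK hlg P).div (d j).ne_zero (ht0 j)] at h3
    exact sub_eq_zero.1 h3
  rw [h2, ram_formula (G := fun i j => ∑ r ∈ univ.filter (fun r => s(i₁ r, i₂ r) = s(i, j)),
      sy lg P.1 (R r).1 + (P.1.natDegree : ZMod ℓ) * lglE lg e N i j)
    (r := ∑ P' ∈ D.erase P, sy lg P.1 P'.1) hS.ha hS.hs (isAdd_ordKZ ℓ P) (isAdd_rsK hlg P) hE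
    one_ne_zero ?_ ?_ ?_ c _ h1 j]
  · rw [add_assoc, sum_tauX i₁ i₂ hS.ne]
    congr 1
    rw [tauX, sum_mul, ← sum_add_distrib]
    refine sum_congr rfl fun m _ => ?_
    ring
  · intro i j hij
    rw [(isAdd_ordKZ ℓ P).tw_sub hS D hij]
    change ∑ P' ∈ D, ((ordK P (pK P') : ℤ) : ZMod ℓ) + (((ordK P (qK (C _)) : ℤ) : ZMod ℓ) +
      ∑ r ∈ _, ((ordK P (pK (R r)) : ℤ) : ZMod ℓ)) = 1
    rw [ordK_const P (lead_ne hS hij), sum_eq_zero (s := univ.filter _) fun r _ => by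
        rw [ordK_prime, if_neg (hD P hP r), Int.cast_zero],
      sum_congr rfl fun Q _ => by rw [ordK_prime P Q, Int.cast_ite, Int.cast_one, Int.cast_zero]]
    rw [sum_ite_eq, if_pos hP, Int.cast_zero, add_zero, add_zero]
  · intro i j hij
    rw [(isAdd_rsK hlg P).tw_sub hS D hij, rsK_const hlg P (lead_ne hS hij),
      sum_congr (s₁ := univ.filter _) rfl fun r _ => by
        rw [rsK_prime hlg P (R r), if_neg (hD P hP r)],
      ← add_sum_erase D _ hP, rsK_prime hlg P P, if_pos rfl, zero_add,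
      sum_congr (s₁ := D.erase P) rfl fun Q hQ => by
        rw [rsK_prime hlg P Q, if_neg (ne_of_mem_erase hQ).symm]]
    rw [lglE]
    ring
  · intro i j hij
    rw [Sym2.eq_swap, lglE_symm hlg hm hS hij]

end Descent

end Pool.Agent.Helper54.PT
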