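import Pool.Agent.Helper33.TW.C17

/-!
# Module C18: the local condition at the bad primes
-/

set_option autoImplicit false
set_option linter.unusedSectionVars false

namespace Pool.Agent.Helper54.PT

open Polynomial Finset Pool.Agent.Helper47.BSD Pool.Agent.Helper33.TW

section Descent

variable {F : Type} [Field F] [Finite F] {ℓ : ℕ} [Fact ℓ.Prime] {ι : Type} [Fintype ι]
  [DecidableEq ι] {σ : Type} [Fintype σ] [DecidableEq σ] {a : ι → ℕ} {e : ι → F[X]}
  {R : σ → Prm F} {i₁ i₂ : σ → ι} {N : ℕ} {lg : F → ZMod ℓ}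

/-- C18: the bad primes; `ln` is `loc_node` -/
theorem selmer_node
    (ln : ∀ {k : Type} [NontriviallyNormedField k] [IsUltrametricDist k] [CompleteSpace k]
      {π : k} (_ : LF ℓ π) (e : ι → k) (i₁ i₂ : ι) (_ : i₁ ≠ i₂) (_ : ∀ i, ‖e i‖ ≤ 1)
      (_ : ∀ i j, i ≠ j → s(i, j) ≠ s(i₁, i₂) → ‖e i - e j‖ = 1) (_ : ‖e i₁ - e i₂‖ = ‖π‖)
      (d : ι → kˣ) (_ : d ∈ descentGroup ℓ a e),
      ∃ (c : ℕ) (w : ι → k), (∀ j, (d j : k) = tt ℓ a e i₁ j ^ c * w j) ∧
        (∀ j, ∃ x : k, x ≠ 0 ∧ ‖w j‖ = ‖x‖ ^ ℓ) ∧ ∃ x : k, w i₁ = w i₂ * x ^ ℓ)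
    (hq : ℓ ∣ Nat.card F - 1) (hlg : IsLog ℓ lg) (hm : lg (-1) = 0)
    (hS : Setup ℓ a e R i₁ i₂ N) (D : Finset (Prm F))
    (hD : ∀ P ∈ D, ∀ r, P ≠ R r) (d : ι → (RatFunc F)ˣ) (hd : d ∈ selmerSet ℓ a (tw e D)) (r : σ) :
    (∀ m, m ≠ i₁ r → m ≠ i₂ r → (ordK (R r) (d m : RatFunc F) : ZMod ℓ) = 0) ∧
      rsK lg (R r) (d (i₁ r) : RatFunc F) - rsK lg (R r) (d (i₂ r) : RatFunc F) =
        (ordK (R r) (d (i₂ r) : RatFunc F) : ZMod ℓ) *
          (rho a i₁ i₂ (lglE lg e N) (fun r => ((R r).1.natDegree : ZMod ℓ))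
            (fun r r' => sy lg (R r).1 (R r').1) r -
              asum ℓ a * (a (i₁ r) : ZMod ℓ)⁻¹ * ∑ P ∈ D, sy lg (R r).1 P.1) := by
  obtain ⟨p, hp, hchar⟩ := exists_charP F
  obtain ⟨v, hvn, hv⟩ := exists_absP (R r)
  have hdP := hd v hvn
  have hult := ultra_completion v p hp
  let := nontrivNormed v hvn
  have hk := lf_absP hq (R r) v hv
  have hnorm : ∀ x : RatFunc F, ‖algebraMap (RatFunc F) v.Completion x‖ = v x := norm_algebraMap v
  have hE := tw_sub_ne_zero hS D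
  -- the order of the differences
  have hord : ∀ i j, i ≠ j → ordK (R r) (tw e D i - tw e D j) =
      if s(i, j) = s(i₁ r, i₂ r) then 1 else 0 := by
    intro i j hij
    rw [(isAdd_ordK (R r)).tw_sub hS D hij, ordK_const (R r) (lead_ne hS hij),
      sum_eq_zero (s := D) fun Q hQ => by rw [ordK_prime, if_neg (hD Q hQ r).symm], zero_add,
      zero_add, sum_congr rfl fun r' _ => ordK_prime (R r) (R r')]
    have h1 : ∀ r', (if R r = R r' then (1 : ℤ) else 0) = if r = r' then 1 else 0 := by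
      intro r'
      by_cases h : r = r'
      · rw [if_pos h, if_pos (by rw [h])]
      · rw [if_neg h, if_neg fun h2 => h (hS.inj h2)]
    rw [sum_congr rfl fun r' _ => h1 r', sum_ite_eq]
    simp only [mem_filter, mem_univ, true_and]
    exact if_congr ⟨fun h => h.symm, fun h => h.symm⟩ rfl rfl
  have hEv : ∀ i j, i ≠ j → v (tw e D i - tw e D j) =
      if s(i, j) = s(i₁ r, i₂ r) then v (pK (R r)) else 1 := by
    intro i j hij
    rw [hv _ (hE i j hij), hord i j hij]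
    split_ifs
    · rw [hv _ (pK_ne_zero (R r)), ordK_prime, if_pos rfl]
    · simp
  obtain ⟨c, w, hcw, hw1, x, hx⟩ := ln (k := v.Completion) hk
    (fun i => algebraMap (RatFunc F) v.Completion (tw e D i)) (i₁ r) (i₂ r) (hS.ne r)
    (fun i => by rw [hnorm]; exact abs_qK_le (R r) hv _)
    (fun i j hij h => by rw [← map_sub, hnorm, hEv i j hij, if_neg h])
    (by rw [← map_sub, hnorm, hnorm, hEv _ _ (hS.ne r), if_pos rfl])
    (mapUnits (algebraMap (RatFunc F) v.Completion) d) hdP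
  have ht0 : ∀ j, tt ℓ a (tw e D) (i₁ r) j ^ c ≠ 0 := fun j => pow_ne_zero _ (tt_ne_zero hE _ j)
  -- the elements `w j` come from the global field
  set W : ι → RatFunc F := fun j => (d j : RatFunc F) / tt ℓ a (tw e D) (i₁ r) j ^ c with hW
  have hW0 : ∀ j, W j ≠ 0 := fun j => div_ne_zero (d j).ne_zero (ht0 j)
  have hWw : ∀ j, algebraMap (RatFunc F) v.Completion (W j) = w j := by
    intro j
    have h1 := hcw j
    rw [← map_tt (algebraMap (RatFunc F) v.Completion)] at h1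
    have h2 : algebraMap (RatFunc F) v.Completion (tt ℓ a (tw e D) (i₁ r) j ^ c) ≠ 0 := by
      rw [Ne, map_eq_zero]
      exact ht0 j
    rw [hW, map_div₀, div_eq_iff h2, mul_comm, map_pow]
    exact h1
  have hWo : ∀ j, (ordK (R r) (W j) : ZMod ℓ) = 0 := by
    intro j
    obtain ⟨y, hy0, hy⟩ := hw1 j
    obtain ⟨z, hz0, hz⟩ := exists_abs_eq v p hp y hy0
    rw [← hWw, hnorm] at hy
    change v (W j) = ‖y‖ ^ ℓ at hy
    have h1 : v (W j) = v z ^ ℓ := by rw [hy, hz]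
    rw [hv _ (hW0 j), hv _ hz0, ← zpow_natCast, ← zpow_mul] at h1
    have h2 := zpow_right_injective₀ (two_pos) (by norm_num : (2 : ℝ) ≠ 1) h1
    rw [ZMod.intCast_zmod_eq_zero_iff_dvd]
    exact ⟨ordK (R r) z, by linarith⟩
  have hWr : rsK lg (R r) (W (i₁ r)) = rsK lg (R r) (W (i₂ r)) := by
    have h1 := (class_of_pow_absP hlg (R r) v hv (div_ne_zero (hW0 (i₁ r)) (hW0 (i₂ r)))
      ⟨x, by
        rw [map_div₀, hWw, hWw, hx, mul_div_cancel_left₀]
        rw [← hWw, Ne, map_eq_zero]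
        exact hW0 _⟩).2
    rw [(isAdd_rsK hlg (R r)).div (hW0 _) (hW0 _)] at h1
    exact sub_eq_zero.1 h1
  -- the classes of `d`
  have hgen : ∀ f : RatFunc F → ZMod ℓ, IsAdd f → ∀ j, f (d j : RatFunc F) =
      c * f (tt ℓ a (tw e D) (i₁ r) j) + f (W j) := by
    intro f hf j
    have h2 : f (W j) = f (d j : RatFunc F) - f (tt ℓ a (tw e D) (i₁ r) j ^ c) :=
      hf.div (d j).ne_zero (ht0 j)
    rw [h2, hf.pow (tt_ne_zero hE (i₁ r) j)]
    ring
  have hdo : ∀ j, (ordK (R r) (d j : RatFunc F) : ZMod ℓ) =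
      c * (ordK (R r) (tt ℓ a (tw e D) (i₁ r) j) : ZMod ℓ) := by
    intro j
    have h1 := hgen _ (isAdd_ordKZ ℓ (R r)) j
    simp only [hWo j, add_zero] at h1
    exact h1
  have hne := hS.ne r
  refine ⟨fun m h1 h2 => ?_, ?_⟩
  · rw [hdo, tt_ne h1, hord _ _ h1.symm, if_neg, Int.cast_zero, mul_zero]
    rw [Sym2.eq_iff]
    rintro (⟨_, h3⟩ | ⟨h3, _⟩)
    · exact h2 h3
    · exact hne h3
  · have hc : (ordK (R r) (d (i₂ r) : RatFunc F) : ZMod ℓ) = c := by
      rw [hdo, tt_ne hne.symm, hord _ _ hne, if_pos rfl, Int.cast_one, mul_one]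
    have hrs : ∀ m, m ≠ i₁ r → rsK lg (R r) (tw e D (i₁ r) - tw e D m) =
        ∑ P ∈ D, sy lg (R r).1 P.1 + lam i₁ i₂ (lglE lg e N)
          (fun r => ((R r).1.natDegree : ZMod ℓ)) (fun r r' => sy lg (R r).1 (R r').1) r
          (i₁ r) m := by
      intro m hm1
      rw [(isAdd_rsK hlg (R r)).tw_sub hS D hm1.symm, rsK_const hlg (R r) (lead_ne hS hm1.symm),
        sum_congr (s₁ := D) rfl fun Q hQ => by
          rw [rsK_prime hlg (R r) Q, if_neg (hD Q hQ r).symm]]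
      rw [lam, add_comm (Finset.sum _ _) (_ * lglE _ _ _ _ _)]
      congr 2
      rw [sum_filter, sum_filter]
      refine sum_congr rfl fun r' _ => ?_
      rw [rsK_prime hlg (R r) (R r')]
      by_cases h1 : r' = r
      · subst h1
        simp
      · have h2 : R r ≠ R r' := fun h => h1 (hS.inj h).symm
        rw [if_neg h2]
        exact if_congr ⟨fun h => ⟨h1, h⟩, fun h => h.2⟩ rfl rfl
    set L := lam i₁ i₂ (lglE lg e N) (fun r => ((R r).1.natDegree : ZMod ℓ))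
      (fun r r' => sy lg (R r).1 (R r').1) r (i₁ r) with hL
    set κ := ∑ P ∈ D, sy lg (R r).1 P.1 with hκ
    have h1 := hgen _ (isAdd_rsK hlg (R r)) (i₁ r)
    have h2 := hgen _ (isAdd_rsK hlg (R r)) (i₂ r)
    rw [(isAdd_rsK hlg (R r)).tt_self hE] at h1
    rw [tt_ne hne.symm, hrs _ hne.symm] at h2
    have h3 : ∑ m ∈ univ.erase (i₁ r), (a m : ZMod ℓ) * rsK lg (R r) (tw e D (i₁ r) - tw e D m) =
        (asum ℓ a - a (i₁ r)) * κ + (a (i₂ r) * L (i₂ r) +
          ∑ m ∈ univ.filter (fun m => m ≠ i₁ r ∧ m ≠ i₂ r), (a m : ZMod ℓ) * L m) := by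
      have h4 : ∑ m ∈ univ.erase (i₁ r), (a m : ZMod ℓ) = asum ℓ a - a (i₁ r) := by
        rw [asum, ← add_sum_erase univ (fun i => (a i : ZMod ℓ)) (mem_univ (i₁ r))]
        ring
      have h5 : ∑ m ∈ univ.erase (i₁ r), (a m : ZMod ℓ) * rsK lg (R r) (tw e D (i₁ r) - tw e D m) =
          ∑ m ∈ univ.erase (i₁ r), ((a m : ZMod ℓ) * κ + (a m : ZMod ℓ) * L m) :=
        sum_congr rfl fun m hm => by rw [hrs m (ne_of_mem_erase hm), mul_add]
      have h6 : univ.filter (fun m => m ≠ i₁ r ∧ m ≠ i₂ r) = (univ.erase (i₁ r)).erase (i₂ r) := by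
        ext m
        simp [and_comm]
      rw [h5, sum_add_distrib, ← sum_mul, h4, h6,
        ← add_sum_erase (univ.erase (i₁ r)) _ (mem_erase.2 ⟨hne.symm, mem_univ _⟩)]
    rw [h3] at h1
    rw [h1, h2, hWr, hc, rho, ← hL]
    have h7 : (a (i₁ r) : ZMod ℓ) ≠ 0 := Helper33.TW.natCast_ne_zero (hS.ha _)
    field_simp
    ring

end Descent

end Pool.Agent.Helper54.PT
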