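import Pool.Agent.Helper33.TW.C17

/-!
# Module C20: the local condition at infinity, ramified case
-/

set_option autoImplicit false
set_option linter.unusedSectionVars false

namespace Pool.Agent.Helper54.PT

open Polynomial Finset Pool.Agent.Helper47.BSD Pool.Agent.Helper33.TW

section Descent

variable {F : Type} [Field F] [Finite F] {ℓ : ℕ} [Fact ℓ.Prime] {ι : Type} [Fintype ι]
  [DecidableEq ι] {σ : Type} [Fintype σ] [DecidableEq σ] {a : ι → ℕ} {e : ι → F[X]}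
  {R : σ → Prm F} {i₁ i₂ : σ → ι} {N : ℕ} {lg : F → ZMod ℓ}

/-- C20: infinity, ramified; `lr` is `loc_ram` -/
theorem selmer_inf_ram
    (lr : ∀ {k : Type} [NontriviallyNormedField k] [IsUltrametricDist k] [CompleteSpace k]
      {π : k} (_ : LF ℓ π) (D : k) (m : ℤ) (_ : ¬ (ℓ : ℤ) ∣ m) (_ : ‖D‖ = ‖π‖ ^ m) (e : ι → k)
      (_ : ∀ i, ‖e i‖ ≤ 1) (_ : ∀ i j, i ≠ j → ‖e i - e j‖ = 1) (d : ι → kˣ)
      (_ : d ∈ descentGroup ℓ a (fun i => D * e i)),
      ∃ (c : ι → ℕ) (x : ι → k), ∀ j,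
        (d j : k) = (∏ i, tt ℓ a (fun i => D * e i) i j ^ c i) * x j ^ ℓ)
    (hq : ℓ ∣ Nat.card F - 1) (hlg : IsLog ℓ lg) (hm : lg (-1) = 0)
    (hS : Setup ℓ a e R i₁ i₂ N)
    (D : Finset (Prm F)) (hn : ¬ ℓ ∣ ∑ P ∈ D, P.1.natDegree + N) (d : ι → (RatFunc F)ˣ)
    (hd : d ∈ selmerSet ℓ a (tw e D)) (j : ι) :
    lg (lcK (d j : RatFunc F)) = tauX a i₁ i₂ (lglE lg e N)
      (fun m => ((∑ P ∈ D, P.1.natDegree + N : ℕ) : ZMod ℓ)⁻¹ *
        (((d m : RatFunc F).intDegree : ℤ) : ZMod ℓ)) j none := by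
  obtain ⟨p, hp, hchar⟩ := exists_charP F
  obtain ⟨v, hvn, hv⟩ := exists_absInf F
  have hdP := hd v hvn
  have := ultra_completion v p hp
  let := nontrivNormed v hvn
  have hk := lf_absInf hq v hv
  have hnorm : ∀ x : RatFunc F, ‖algebraMap (RatFunc F) v.Completion x‖ = v x := norm_algebraMap v
  have hX : (RatFunc.X : RatFunc F) ≠ 0 := RatFunc.X_ne_zero
  have hXN : (RatFunc.X : RatFunc F) ^ N ≠ 0 := pow_ne_zero _ hX
  have hE := tw_sub_ne_zero hS D
  have hfun : (fun i => algebraMap (RatFunc F) v.Completion (tw e D i)) =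
      fun i => algebraMap (RatFunc F) v.Completion ((∏ P ∈ D, pK P) * RatFunc.X ^ N) *
        algebraMap (RatFunc F) v.Completion (qK (e i) / RatFunc.X ^ N) := by
    funext i
    rw [← map_mul, tw_eq]
    congr 1
    field_simp
  rw [hfun] at hdP
  have hdeg1 : ∀ P : Prm F, (pK P).intDegree = P.1.natDegree := fun P =>
    RatFunc.intDegree_polynomial
  have hvX : v (RatFunc.X⁻¹) = (2 : ℝ)⁻¹ := by
    rw [map_inv₀, hv _ hX, RatFunc.intDegree_X, zpow_one]
  have hD1 : v ((∏ P ∈ D, pK P) * RatFunc.X ^ N) =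
      v (RatFunc.X⁻¹) ^ (-((∑ P ∈ D, P.1.natDegree + N : ℕ) : ℤ)) := by
    have h0 : ∏ P ∈ D, pK P ≠ 0 := prod_pK_ne_zero D id
    rw [map_mul, map_pow, hv _ h0, hv _ hX, hvX, RatFunc.intDegree_X, zpow_one, inv_zpow', neg_neg,
      prod_aux isAdd_deg, sum_congr rfl fun Q _ => hdeg1 Q, zpow_natCast, pow_add,
      ← Nat.cast_sum, zpow_natCast]
  have hsubdeg : ∀ i j, i ≠ j → (qK (e i) - qK (e j)).intDegree = N := by
    intro i j hij
    rw [← map_sub (algebraMap F[X] (RatFunc F)), RatFunc.intDegree_polynomial]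
    congr 1
    refine le_antisymm ((natDegree_sub_le _ _).trans (max_le (hS.deg i) (hS.deg j))) ?_
    refine le_natDegree_of_ne_zero ?_
    rw [coeff_sub]
    exact lead_ne hS hij
  obtain ⟨c, x, hcx⟩ := lr (k := v.Completion) hk
    (algebraMap (RatFunc F) v.Completion ((∏ P ∈ D, pK P) * RatFunc.X ^ N))
    (-((∑ P ∈ D, P.1.natDegree + N : ℕ) : ℤ))
    (fun h => hn (Int.natCast_dvd_natCast.1 ((dvd_neg).1 h)))
    (by rw [hnorm, hnorm]; exact hD1)
    (fun i => algebraMap (RatFunc F) v.Completion (qK (e i) / RatFunc.X ^ N))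
    (fun i => by
      rw [hnorm, map_div₀, map_pow, hv _ hX, RatFunc.intDegree_X, zpow_one]
      by_cases h : e i = 0
      · rw [h, qK, map_zero, map_zero, zero_div]
        exact zero_le_one
      · rw [hv _ (qK_ne_zero h), qK, RatFunc.intDegree_polynomial, zpow_natCast]
        exact div_le_one_of_le₀ (pow_le_pow_right₀ one_le_two (hS.deg i)) (by positivity))
    (fun i j hij => by
      rw [← map_sub, hnorm, ← sub_div, map_div₀, map_pow, hv _ hX, RatFunc.intDegree_X, zpow_one,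
        hv _ (qK_sub_ne_zero hS hij), hsubdeg i j hij, zpow_natCast, div_self]
      positivity)
    (mapUnits (algebraMap (RatFunc F) v.Completion) d) hdP
  rw [← hfun] at hcx
  have ht0 : ∀ j, ∏ i, tt ℓ a (tw e D) i j ^ c i ≠ 0 := fun j =>
    prod_ne_zero_iff.2 fun i _ => pow_ne_zero _ (tt_ne_zero hE i j)
  have hcl : ∀ j, (ℓ : ℤ) ∣ ((d j : RatFunc F) / ∏ i, tt ℓ a (tw e D) i j ^ c i).intDegree ∧
      lg (lcK ((d j : RatFunc F) / ∏ i, tt ℓ a (tw e D) i j ^ c i)) = 0 := fun j =>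
    class_of_pow_absInf hlg v hv (div_ne_zero (d j).ne_zero (ht0 j))
      ⟨x j, transfer hE d c x hcx j⟩
  have hn0 : ((∑ P ∈ D, P.1.natDegree + N : ℕ) : ZMod ℓ) ≠ 0 := Helper33.TW.natCast_ne_zero hn
  have h1 : ∀ j, (fun x : RatFunc F => (x.intDegree : ZMod ℓ)) (∏ i, tt ℓ a (tw e D) i j ^ c i) =
      ((∑ P ∈ D, P.1.natDegree + N : ℕ) : ZMod ℓ) *
        (fun m => ((∑ P ∈ D, P.1.natDegree + N : ℕ) : ZMod ℓ)⁻¹ *
        (((d m : RatFunc F).intDegree : ℤ) : ZMod ℓ)) j := by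
    intro j
    have h2 := (ZMod.intCast_zmod_eq_zero_iff_dvd _ ℓ).2 (hcl j).1
    rw [isAdd_deg.div (d j).ne_zero (ht0 j), Int.cast_sub] at h2
    rw [mul_inv_cancel_left₀ hn0]
    exact (sub_eq_zero.1 h2).symm
  have h2 : lg (lcK (d j : RatFunc F)) = lg (lcK (∏ i, tt ℓ a (tw e D) i j ^ c i)) := by
    have h3 := (hcl j).2
    rw [(isAdd_lcK hlg).div (d j).ne_zero (ht0 j)] at h3
    exact sub_eq_zero.1 h3
  have hlc1 : ∀ P : Prm F, lg (lcK (pK P)) = 0 := by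
    intro P
    rw [lcK_poly, P.2.1.leadingCoeff]
    have h := hlg.1 1 1 one_ne_zero one_ne_zero
    rw [mul_one] at h
    exact add_eq_left.1 h.symm
  rw [h2, ram_formula (f := fun x : RatFunc F => (x.intDegree : ZMod ℓ))
    (g := fun x : RatFunc F => lg (lcK x)) (G := lglE lg e N) (r := 0) hS.ha hS.hs (isAdd_degZ ℓ)
    (isAdd_lcK hlg) hE hn0 ?_ ?_ ?_ c _ h1 j]
  · rw [mul_zero, zero_add, tauX]
  · intro i j hij
    have h0 : ∏ P ∈ D, pK P ≠ 0 := prod_pK_ne_zero D id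
    have h3 : (tw e D i - tw e D j).intDegree = ((∑ P ∈ D, P.1.natDegree + N : ℕ) : ℤ) := by
      rw [Helper33.TW.tw_sub, RatFunc.intDegree_mul h0 (qK_sub_ne_zero hS hij), hsubdeg i j hij,
        prod_aux isAdd_deg, sum_congr rfl fun Q _ => hdeg1 Q, Nat.cast_add, Nat.cast_sum]
    change (((tw e D i - tw e D j).intDegree : ℤ) : ZMod ℓ) = _
    rw [h3, Int.cast_natCast]
  · intro i j hij
    rw [(isAdd_lcK hlg).tw_sub hS D hij, sum_congr rfl fun Q _ => hlc1 Q,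
      sum_congr (s₁ := univ.filter _) rfl fun r _ => hlc1 (R r), lcK_poly, leadingCoeff_C, lglE]
    simp
  · intro i j hij
    exact lglE_symm hlg hm hS hij

end Descent

end Pool.Agent.Helper54.PT
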