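import Pool.Agent.Helper31.TW.St3

set_option autoImplicit false

namespace Pool.Agent.Helper33.TW

open Pool.Agent.Helper31.TW

private theorem claim (hASM : StASM) (n : ℕ) (S : Set (Fin n → ℕ)) (hS : NonCrossing S)
    (I : Finset (Fin n)) : ∀ a : Fin n → ℕ, ∃ 𝒟 : Set (Set (Fin n → ℕ)), 𝒟.Finite ∧
      (∀ C ∈ 𝒟, IsCut C ∧ C ⊆ S) ∧ ∀ x ∈ S, (∀ i, i ∉ I → x i = a i) → ∃ C ∈ 𝒟, x ∈ C := by
  classical
  induction I using Finset.strongInduction with
  | H I ih =>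
    intro a
    obtain ⟨K', 𝒟0, hfin0, hC0, hcov0⟩ := hASM n S hS I a
    have hsub : ∀ j : Fin n, ∀ v : ℕ, ∃ 𝒟 : Set (Set (Fin n → ℕ)), 𝒟.Finite ∧
        (∀ C ∈ 𝒟, IsCut C ∧ C ⊆ S) ∧ (j ∈ I → ∀ x ∈ S,
          (∀ i, i ∉ I.erase j → x i = Function.update a j v i) → ∃ C ∈ 𝒟, x ∈ C) := by
      intro j v
      by_cases hj : j ∈ I
      · obtain ⟨𝒟, h1, h2, h3⟩ := ih (I.erase j) (Finset.erase_ssubset hj) (Function.update a j v)
        exact ⟨𝒟, h1, h2, fun _ => h3⟩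
      · exact ⟨∅, Set.finite_empty, by simp, fun h => absurd h hj⟩
    choose 𝒟' hfin hC hcov using hsub
    refine ⟨𝒟0 ∪ ⋃ j ∈ (Set.univ : Set (Fin n)), ⋃ v ∈ (Set.Iio K' : Set ℕ), 𝒟' j v, ?_, ?_, ?_⟩
    · refine hfin0.union (Set.Finite.biUnion Set.finite_univ fun j _ => ?_)
      exact Set.Finite.biUnion (Set.finite_Iio K') fun v _ => hfin j v
    · intro C hCm
      rcases hCm with hCm | hCm
      · exact hC0 C hCm
      · simp only [Set.mem_iUnion] at hCm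
        obtain ⟨j, -, v, -, hm⟩ := hCm
        exact hC j v C hm
    · intro x hx hxa
      by_cases hbig : ∀ i ∈ I, K' ≤ x i
      · obtain ⟨C, h1, h2⟩ := hcov0 x hx hxa hbig
        exact ⟨C, Or.inl h1, h2⟩
      · push Not at hbig
        obtain ⟨j, hj, hlt⟩ := hbig
        obtain ⟨C, h1, h2⟩ := hcov j (x j) hj x hx (by
          intro i hi
          by_cases hij : i = j
          · subst hij; simp
          · rw [Function.update_of_ne hij]
            refine hxa i fun hiI => hi ?_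
            exact Finset.mem_erase.2 ⟨hij, hiI⟩)
        refine ⟨C, Or.inr ?_, h2⟩
        simp only [Set.mem_iUnion]
        exact ⟨j, Set.mem_univ j, x j, hlt, h1⟩

theorem hIND (hASM : StASM) : StIND := by
  intro n S hS
  obtain ⟨𝒟, hfin, hC, hcov⟩ := claim hASM n S hS Finset.univ 0
  refine ⟨𝒟, hfin, fun C h => (hC C h).1, ?_⟩
  apply Set.Subset.antisymm
  · intro x hx
    obtain ⟨C, h1, h2⟩ := hcov x hx fun i hi => absurd (Finset.mem_univ i) hi
    exact ⟨C, h1, h2⟩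
  · rintro x ⟨C, h1, h2⟩
    exact (hC C h1).2 h2

end Pool.Agent.Helper33.TW
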