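import Pool.Agent.Helper19.TW.C5b
import Pool.Agent.Helper92.TW.C8
import Pool.Agent.Helper99.TW.C9
import Pool.Agent.Helper33.TW.Pre

/-!
# Common lemmas for the local conditions: the twisted tuple
-/

set_option autoImplicit false
set_option linter.unusedSectionVars false

namespace Pool.Agent.Helper33.TW

open Polynomial Finset Pool.Agent.Helper54.PT Pool.Agent.Helper47.BSD

section

variable {F : Type} [Field F]

/-- A prime as a rational function. -/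
noncomputable abbrev pK (P : Prm F) : RatFunc F := algebraMap F[X] (RatFunc F) P.1

/-- A polynomial as a rational function. -/
noncomputable abbrev qK (f : F[X]) : RatFunc F := algebraMap F[X] (RatFunc F) f

lemma qK_ne_zero {f : F[X]} (hf : f ≠ 0) : qK f ≠ 0 := by
  rw [qK, Ne, FaithfulSMul.algebraMap_eq_zero_iff]
  exact hf

lemma pK_ne_zero (P : Prm F) : pK P ≠ 0 := qK_ne_zero P.2.2.ne_zero

lemma isAdd_ordK (P : Prm F) : IsAdd (ordK P) := fun _ _ hx hy => ordK_mul P hx hy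

lemma isAdd_ordKZ (ℓ : ℕ) (P : Prm F) : IsAdd fun x => (ordK P x : ZMod ℓ) := fun _ _ hx hy => by
  change ((ordK P _ : ℤ) : ZMod ℓ) = (ordK P _ : ZMod ℓ) + (ordK P _ : ZMod ℓ)
  rw [ordK_mul P hx hy, Int.cast_add]

lemma isAdd_rsK {ℓ : ℕ} {lg : F → ZMod ℓ} (hlg : IsLog ℓ lg) (P : Prm F) : IsAdd (rsK lg P) :=
  fun _ _ hx hy => rsK_mul hlg P hx hy

lemma isAdd_deg : IsAdd fun x : RatFunc F => x.intDegree := fun _ _ hx hy =>
  RatFunc.intDegree_mul hx hy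

lemma isAdd_degZ (ℓ : ℕ) : IsAdd fun x : RatFunc F => (x.intDegree : ZMod ℓ) :=
  fun _ _ hx hy => by
    change ((RatFunc.intDegree _ : ℤ) : ZMod ℓ) = (RatFunc.intDegree _ : ZMod ℓ) +
      (RatFunc.intDegree _ : ZMod ℓ)
    rw [RatFunc.intDegree_mul hx hy, Int.cast_add]

lemma isAdd_lcK {ℓ : ℕ} {lg : F → ZMod ℓ} (hlg : IsLog ℓ lg) :
    IsAdd fun x : RatFunc F => lg (lcK x) := fun _ _ hx hy => by
  change lg (lcK _) = lg (lcK _) + lg (lcK _)
  rw [lcK_mul hx hy, hlg.1 _ _ (lcK_ne_zero hx) (lcK_ne_zero hy)]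

lemma not_dvd_of_ne {P Q : Prm F} (h : P ≠ Q) : ¬ P.1 ∣ Q.1 := by
  intro h2
  have h3 : Associated P.1 Q.1 := P.2.2.associated_of_dvd Q.2.2 h2
  exact h (Subtype.ext (eq_of_monic_of_associated P.2.1 Q.2.1 h3))

lemma rsK_prime {ℓ : ℕ} {lg : F → ZMod ℓ} (hlg : IsLog ℓ lg) (P Q : Prm F) :
    rsK lg P (pK Q) = if P = Q then 0 else sy lg P.1 Q.1 := by
  split_ifs with h
  · subst h
    exact rsK_self hlg P
  · exact rsK_poly hlg P (not_dvd_of_ne h)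

lemma rsK_const {ℓ : ℕ} {lg : F → ZMod ℓ} (hlg : IsLog ℓ lg) (P : Prm F) {c : F} (hc : c ≠ 0) :
    rsK lg P (qK (C c)) = (P.1.natDegree : ZMod ℓ) * lg c := by
  rw [rsK_poly hlg P, sy_C hlg P.2.1 hc]
  intro h
  exact P.2.2.not_isUnit (isUnit_of_dvd_unit h (isUnit_C.2 hc.isUnit))

variable {ℓ : ℕ} {ι : Type} [Fintype ι] [DecidableEq ι] {σ : Type} [Fintype σ] [DecidableEq σ]
  {a : ι → ℕ} {e : ι → F[X]} {R : σ → Prm F} {i₁ i₂ : σ → ι} {N : ℕ}

lemma qK_sub (hS : Setup ℓ a e R i₁ i₂ N) {i j : ι} (hij : i ≠ j) :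
    qK (e i) - qK (e j) = qK (C ((e i).coeff N - (e j).coeff N)) *
      ∏ r ∈ univ.filter (fun r => s(i₁ r, i₂ r) = s(i, j)), pK (R r) := by
  rw [qK, qK, ← map_sub, hS.fact i j hij, map_mul, map_prod]

lemma lead_ne (hS : Setup ℓ a e R i₁ i₂ N) {i j : ι} (hij : i ≠ j) :
    (e i).coeff N - (e j).coeff N ≠ 0 := sub_ne_zero.2 (hS.lead i j hij)

lemma tw_eq (D : Finset (Prm F)) (i : ι) : tw e D i = (∏ P ∈ D, pK P) * qK (e i) := by
  rw [tw, map_mul, map_prod]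

lemma tw_sub (D : Finset (Prm F)) (i j : ι) :
    tw e D i - tw e D j = (∏ P ∈ D, pK P) * (qK (e i) - qK (e j)) := by
  rw [tw_eq, tw_eq, mul_sub]

lemma prod_pK_ne_zero {α : Type} (s : Finset α) (f : α → Prm F) : ∏ x ∈ s, pK (f x) ≠ 0 :=
  prod_ne_zero_iff.2 fun x _ => pK_ne_zero (f x)

lemma qK_sub_ne_zero (hS : Setup ℓ a e R i₁ i₂ N) {i j : ι} (hij : i ≠ j) :
    qK (e i) - qK (e j) ≠ 0 := by
  rw [qK_sub hS hij]
  exact mul_ne_zero (qK_ne_zero (C_ne_zero.2 (lead_ne hS hij))) (prod_pK_ne_zero _ R)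

lemma tw_sub_ne_zero (hS : Setup ℓ a e R i₁ i₂ N) (D : Finset (Prm F)) (i j : ι) (hij : i ≠ j) :
    tw e D i - tw e D j ≠ 0 := by
  rw [tw_sub]
  exact mul_ne_zero (prod_pK_ne_zero D id) (qK_sub_ne_zero hS hij)

lemma prod_aux {A : Type} [CommRing A] {f : RatFunc F → A} (hf : IsAdd f) (D : Finset (Prm F)) :
    f (∏ P ∈ D, pK P) = ∑ P ∈ D, f (pK P) := by
  classical
  induction D using Finset.induction_on with
  | empty => rw [prod_empty, sum_empty, hf.one]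
  | insert P D hP ih =>
    have h : ∏ P ∈ D, pK P ≠ 0 := prod_pK_ne_zero D id
    rw [prod_insert hP, sum_insert hP, hf _ _ (pK_ne_zero P) h, ih]

lemma IsAdd.qK_sub {A : Type} [CommRing A] {f : RatFunc F → A} (hf : IsAdd f)
    (hS : Setup ℓ a e R i₁ i₂ N) {i j : ι} (hij : i ≠ j) :
    f (qK (e i) - qK (e j)) = f (qK (C ((e i).coeff N - (e j).coeff N))) +
      ∑ r ∈ univ.filter (fun r => s(i₁ r, i₂ r) = s(i, j)), f (pK (R r)) := by
  rw [TW.qK_sub hS hij, hf _ _ (qK_ne_zero (C_ne_zero.2 (lead_ne hS hij))) (prod_pK_ne_zero _ R),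
    hf.prod _ _ fun r _ => pK_ne_zero (R r)]

lemma IsAdd.tw_sub {A : Type} [CommRing A] {f : RatFunc F → A} (hf : IsAdd f)
    (hS : Setup ℓ a e R i₁ i₂ N) (D : Finset (Prm F)) {i j : ι} (hij : i ≠ j) :
    f (tw e D i - tw e D j) = ∑ P ∈ D, f (pK P) + (f (qK (C ((e i).coeff N - (e j).coeff N))) +
      ∑ r ∈ univ.filter (fun r => s(i₁ r, i₂ r) = s(i, j)), f (pK (R r))) := by
  have h : ∏ P ∈ D, pK P ≠ 0 := prod_pK_ne_zero D id
  rw [TW.tw_sub, hf _ _ h (qK_sub_ne_zero hS hij), hf.qK_sub hS hij]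
  congr 1
  exact prod_aux hf D

lemma lglE_symm {lg : F → ZMod ℓ} (hlg : IsLog ℓ lg) (hm : lg (-1) = 0)
    (hS : Setup ℓ a e R i₁ i₂ N) {i j : ι} (hij : i ≠ j) : lglE lg e N i j = lglE lg e N j i := by
  have h1 : (e i).coeff N - (e j).coeff N = -1 * ((e j).coeff N - (e i).coeff N) := by ring
  rw [lglE, lglE, h1, hlg.1 _ _ (by simp) (lead_ne hS hij.symm), hm, zero_add]

end

end Pool.Agent.Helper33.TW
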